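import Pool.Agent.Lib.MP_6e0dc6_co.Classify

/-!
# Matching-forcing valence sequences whose terms are at most `n / 2 - 3`

`IsValence f`: some simple graph has degree `f a` at every vertex `a`.
`MatchingForcing f`: `IsValence f` and every graph with these degrees has a perfect matching.

We determine all matching-forcing valence sequences `v` of length `n ≥ 2 D + 6`, where `D` is the
largest term (and those with `n ≥ 3 D + 2`, which adds only trivial cases with `D ≤ 3`).
-/

namespace Pool.Agent.Results.MP_6e0dc6_co.Classification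

open Finset Pool.Agent.MP_6e0dc6_co

theorem result {n D : ℕ} (v : Fin n → ℕ) (hv : IsValence v)
    (hD : IsGreatest (Set.range v) D) (hn : 2 * D + 6 ≤ n ∨ 3 * D + 2 ≤ n) :
    MatchingForcing v ↔
      (∀ i, v i = 1) ∨
      ∃ r : ℕ, 3 ≤ r ∧ r ≤ D ∧ Odd r ∧ (∀ i, Odd (v i) ∧ 3 ≤ v i) ∧
        ∑ i, (v i - r) + ∑ i, (r - v i) + 2 ≤ 2 * r ∧
        (3 * r ≤ n + 1 → (univ.filter fun i => v i + 2 = r).card + 1 ≠ r) ∧
        (r = 7 → 22 ≤ n → (univ.filter fun i => v i = 3).card ≠ 3) ∧
        (3 * r + 3 ≤ n → ∑ i, min (v i - r) ((n - 3 * r - 1) / 2) + ∑ i, (r - v i) < r) ∧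
        (r = D → n ≤ 3 * r + 5) ∧
        (r = D → n = 3 * r + 5 → ∀ (Q : Finset (Fin n)) (c : ℕ),
          IsValence (fun o : Option Q => o.elim c fun i => r - v i) → c < 2) ∧
        (r < D → 3 * r + 5 ≤ n → ∀ (u : Fin n) (Q : Finset (Fin n)) (c : ℕ), v u = D →
          IsValence (fun o : Option Q => o.elim c fun i => r - v i) →
          (∃ i, i ≠ u ∧ n - 2 * r - 3 < v i) ∨
          D - r + c < (univ.filter fun i => i ≠ u ∧ v i = n - 2 * r - 3).card
            + (if n = 3 * r + 5 then 0 else 1)) := by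
  obtain ⟨⟨i0, hi0⟩, hub⟩ := hD
  have hD1 : ∀ i, v i ≤ D := fun i => hub ⟨i, rfl⟩
  by_cases h26 : 2 * D + 6 ≤ n
  · have := classify2 v hv D hD1 ⟨i0, hi0⟩ (by rwa [Fintype.card_fin])
    unfold ForcingCond at this
    rw [Fintype.card_fin] at this
    exact this
  · -- only trivial cases with `D ≤ 3` remain
    have h3 : 3 * D + 2 ≤ n := hn.resolve_left h26
    have hcl := classify v hv D hD1 ⟨i0, hi0⟩ (by rwa [Fintype.card_fin])
    rw [hcl, Fintype.card_fin]
    constructor
    · rintro (h | ⟨h1, _, h2⟩)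
      · exact Or.inl h
      · exfalso
        have h4 := (h1 i0).2
        rw [hi0] at h4
        rcases h2 with h2 | ⟨h2, _⟩ <;> omega
    · rintro (h | ⟨r, hr3, hrD, hro, h1, _⟩)
      · exact Or.inl h
      · exfalso
        have hev := even_card_of_odd v (even_sum v hv) (fun i => (h1 i).1)
        rw [Fintype.card_fin] at hev
        rcases hev with ⟨m, hm⟩
        omega

end Pool.Agent.Results.MP_6e0dc6_co.Classification
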