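import Pool.Agent.Lib.MP_6e0dc6_co.Cons.Main

/-!
# Matching-forcing sequences with two consecutive values

`IsValence f`: some simple graph has degree `f a` at every vertex `a`.
`MatchingForcing f`: `IsValence f` and every graph with these degrees has a perfect matching.
-/

set_option autoImplicit false

namespace Pool.Agent.Results.MP_6e0dc6_co.ConsecutiveTerms

open Pool.Agent.MP_6e0dc6_co

/-- A valence sequence whose values are exactly `k` and `k + 1`, `k ≥ 1`, is matching-forcing iff its length
`n` is even and `n ≤ 2 k + 2`, or `k` is even, `n = 2 k + 4` and at most `k` terms are equal to `k`. -/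
theorem result (n k : ℕ) (v : Fin n → ℕ) (hv : IsValence v) (hk : 1 ≤ k)
    (hval : ∀ i, v i = k ∨ v i = k + 1) (h0 : ∃ i, v i = k) (h1 : ∃ i, v i = k + 1) :
    MatchingForcing v ↔
      Even n ∧ (n ≤ 2 * k + 2 ∨ (Even k ∧ n = 2 * k + 4 ∧ {i | v i = k}.ncard ≤ k)) := by
  have h := Cons.twoM v k hv hk hval h0 h1
  rwa [Fintype.card_fin] at h

end Pool.Agent.Results.MP_6e0dc6_co.ConsecutiveTerms
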