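import Pool.Agent.Lib.MP_6e0dc6_co.Cons.CritB

/-!
# Matching-forcing sequences with large terms: a splitting criterion

`IsValence f`: some simple graph has degree `f a` at every vertex `a`.
`MatchingForcing f`: `IsValence f` and every graph with these degrees has a perfect matching.
-/

set_option autoImplicit false

namespace Pool.Agent.Results.MP_6e0dc6_co.SplitCriterion

open Finset Pool.Agent.MP_6e0dc6_co

/-- A valence sequence of even length `n ≤ 3 k + 1`, `k` a lower bound for the terms, in which the numbers
`v i - k`, `i ∈ S`, have sum less than `2 k` for every set `S` of at most `n / 2 - 1` indices, is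
matching-forcing iff it cannot be split into two valence sequences of odd length. -/
theorem result (n k : ℕ) (v : Fin n → ℕ) (hv : IsValence v) (hn : Even n) (hk : ∀ i, k ≤ v i)
    (h3 : n ≤ 3 * k + 1)
    (hS : ∀ S : Finset (Fin n), 2 * S.card + 2 ≤ n → ∑ i ∈ S, (v i - k) < 2 * k) :
    MatchingForcing v ↔ ¬ ∃ C : Finset (Fin n), Odd C.card ∧
      IsValence (fun i : {i // i ∈ C} => v i) ∧ IsValence (fun i : {i // i ∉ C} => v i) :=
  Cons.critG v hv (by rwa [Fintype.card_fin]) fun _ _ _ hB =>
    Cons.critB v k hk (by rwa [Fintype.card_fin])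
      (fun S hS' => hS S (by rwa [Fintype.card_fin] at hS')) hB

end Pool.Agent.Results.MP_6e0dc6_co.SplitCriterion
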