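import Pool.Agent.Lib.MP_6e0dc6_co.Leaf2.Main

/-!
# Matching-forcing valence sequences with at least two terms equal to 1

`IsValence f`: some simple graph has degree `f a` at every vertex `a`.
`MatchingForcing f`: `IsValence f` and every graph with these degrees has a perfect matching.
`MissAtMost h d`: every simple graph with the degrees `h` has a matching that misses at most `d` vertices.

We determine all matching-forcing sequences with at least two terms `1`, of every length `n` and with every
largest term.  The last alternative refers to the shorter sequence of the numbers `v i - j`.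
-/

set_option autoImplicit false

namespace Pool.Agent.Results.MP_6e0dc6_co.TwoLeaves

open Finset Pool.Agent.MP_6e0dc6_co

/-- Every simple graph with the degrees `h` has a matching which misses at most `d` vertices. -/
def MissAtMost {α : Type} (h : α → ℕ) (d : ℕ) : Prop :=
  ∀ H : SimpleGraph α, (∀ a, (H.neighborSet a).ncard = h a) →
    ∃ M : H.Subgraph, M.IsMatching ∧ (M.vertsᶜ).ncard ≤ d

theorem result {n : ℕ} (v : Fin n → ℕ) (hv : IsValence v) (h2 : 2 ≤ {i | v i = 1}.ncard) :
    MatchingForcing v ↔ Even n ∧
      ((∀ i, v i = 1) ∨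
       ((∀ i, v i = 1 ∨ v i + 3 = n) ∧ {i | v i = 1}.ncard = 2) ∨
       ∃ j D : ℕ, 0 < j ∧ (∀ i, 1 ≤ v i ∧ v i ≤ D) ∧ {i | v i = D}.ncard = j ∧
         D + {i | v i < j}.ncard = n ∧ ∑ i with v i < j, v i = j ∧
         MissAtMost (fun i : {i // j ≤ v i ∧ v i < D} => v i - j) (j - {i | v i < j}.ncard)) := by
  have h := Leaf2.main v hv h2
  rw [Fintype.card_fin] at h
  rw [h]
  refine and_congr_right fun _ => or_congr_right (or_congr_right ?_)
  constructor
  · rintro ⟨j, D, hj, hN, hM⟩
    refine ⟨j, D, hj, fun i => ⟨hN.pos i, hN.le i⟩, hN.top, ?_, ?_, hM⟩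
    · have := hN.card
      rwa [Fintype.card_fin] at this
    · rw [Finset.sum_filter]
      exact hN.sum
  · rintro ⟨j, D, hj, h1, h3, h4, h5, hM⟩
    refine ⟨j, D, hj, ⟨fun i => (h1 i).1, fun i => (h1 i).2, h3, ?_, ?_⟩, hM⟩
    · rw [Fintype.card_fin]
      exact h4
    · rw [Finset.sum_filter] at h5
      exact h5

end Pool.Agent.Results.MP_6e0dc6_co.TwoLeaves
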